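import Pool.Agent.Y128.CV.Mtg
import Pool.Agent.Y574.CY.Eig
import Pool.Agent.Y907.CY.REF
import Pool.Agent.Y317.CY.Pair

/-!
# The Tate conjecture over number fields for varieties cut out of products of cyclic coverings

Let `X_c`, `c` in a finite set, be curves `y ^ n = ∏ (x - a_t) ^ (m_t)` over a number field `F` (or a
finitely generated field of characteristic zero) which contains the roots of unity of order `n = n_c`, of
any degrees `n_c ≥ 3`, with any number `r = r_c` of branch points except four, and any exponents `m_t`,
nonzero modulo `n`, with sum zero, and let `V_c` be the rational Tate module of the primitive part of the
Jacobian of `X_c`. The hypotheses `CyclicCoverings` (for `r ≥ 5` the endomorphism algebra of the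
primitive part is generated by the automorphism, and there is one place where two branch
points of `X_c` meet and the other curves have good reduction) are explained in
MP_938ce2_ag.CyclicCoverings, where the Tate classes on all products of powers of the Jacobians
are determined: they are linear combinations of products of classes of degree two and determinants
on eigenspaces whose residues form a Hodge character.

Here the question is answered over the field `F` itself, and for all smooth projective varieties whose
cohomology is cut out by algebraic correspondences over `F` of products of powers of the curves (with all
components of the Jacobians as above): the powers of the Jacobians, quotients by finite groups, symmetric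
powers, moduli spaces of vector bundles of coprime rank and degree on the curves, and all varieties
dominated by products of the curves. The cohomology in degree `2 j`, twisted by `j`, of such a variety is a
sum of images of projectors `e` on the forms in `2 m` variables (the tensor powers of the
first cohomology), and the theorem (`TateForAllFactors`) says for each of them that the classes of cycles
over `F` which are fixed by `e` are a finitely generated group, generate exactly the space of the
invariants of the Galois group of `F` which are fixed by `e`, and that classes which are independent over
the integers are independent over the `ℓ`-adic numbers. (In the language of motives: `Hom(M, M') ⊗ ℚ_ℓ =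
Hom_G(M_ℓ, M'_ℓ)` for all pure motives cut out of tensor powers and Tate twists of the first cohomology.)

The input about cycles (`CycleClasses`): the classes of cycles over the closure are stable under the
group, a multiple of an invariant class is defined over `F`, intersection numbers are integers, and the
pairing is nondegenerate on Tate classes, because the representations are semisimple (Faltings).
`FermatClassesAreAlgebraic`: classes of degree two are divisor classes (Faltings) and the products of
determinants with Hodge characters come from the Hodge classes of Fermat varieties (symmetric powers of
the line, inductive structure of Shioda and Katsura), which are algebraic for prime degrees, where the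
characters are paired (Ran, Shioda: linear subspaces). So the question has a positive answer without
further hypotheses in the whole category generated by these curves of prime degree `n_c = p`, with any
number of curves and any exponents, although there are many Tate classes not generated by divisors
(classes of Weil type if the exponents are paired, and mixed classes of several curves with different
exponents); and for the other degrees it follows from the Hodge conjecture for Fermat varieties.

The parts `t_EIG`, `t_REF`, `t_NUM`, `t_PAIR` are by helper574, helper907, helper884 and helper317.
-/

namespace Pool.Agent.Results.MP_021685_ag.CyclicCoverings

open Pool.Agent.Y128.CV

/-- The Tate conjecture over number fields for all varieties and motives cut out by correspondences of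
products of Jacobians of cyclic coverings (`k` is the field of the `ℓ`-adic numbers, `Γ` the Galois
group, `z` any primitive root of unity of order `level C`). -/
theorem result {k Γ ι : Type} [Field k] [CharZero k] [Group Γ] [Fintype ι] [DecidableEq ι]
    {V : ι → Type} [∀ c, AddCommGroup (V c)] [∀ c, Module k (V c)]
    [∀ c, FiniteDimensional k (V c)] (C : ι → Covering) (ρ : ∀ c, Representation k Γ (V c))
    (χ : Γ →* k) (ω : ∀ c, V c →ₗ[k] V c →ₗ[k] k) (σ : ∀ c, Module.End k (V c))
    (h : CyclicCoverings C ρ χ ω σ) (z : AlgebraicClosure k) (hz : IsPrimitiveRoot z (level C))
    (A : CycleClasses (rep ρ) (chi χ)) (hA : FermatClassesAreAlgebraic C σ z A) :
    TateForAllFactors A :=
  main_factors Pool.Agent.Y574.CY.t_EIG (Pool.Agent.Y907.CY.t_REF Pool.Agent.Y574.CY.t_EIG)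
    Nm.t_NUM Pool.Agent.Y317.CY.t_PAIR h hz A hA

end Pool.Agent.Results.MP_021685_ag.CyclicCoverings
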