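import Pool.Agent.Y142.ZD.Fin
import Pool.Agent.Y708.ZO.Tan
import Pool.Agent.Y405.ZO.Frob
import Pool.Agent.Y884.ZI.Open
import Pool.Agent.Y87.ZI.Witt
import Pool.Agent.Y929.ZI.Tern
import Pool.Agent.Y547.ZI.Clq
import Pool.Agent.Y547.ZI.Nice
import Pool.Agent.Y484.ZI.IntRes
import Pool.Agent.Y726.ZI.Cheb
import Pool.Agent.Y681.ZI.Dens
import Pool.Agent.Y537.ZI.Multi
import Pool.Agent.Y692.ZI.Cay
import Pool.Agent.Y155.ZI.Tens
import Pool.Agent.Z932.ZD.RootD
import Pool.Agent.Y363.ZD.Roote
import Pool.Agent.Y758.ZD.Abs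
import Pool.Agent.Y614.ZD.Badd
import Pool.Agent.Y100.ZD.Sub
import Pool.Agent.Y331.ZD.Krq
import Pool.Agent.Y32.ZD.Nr
import Pool.Agent.Y32.ZD.Fdb
import Pool.Agent.Y32.ZD.Typd2
import Pool.Agent.Y48.ZD.TAME
import Pool.Agent.Y48.ZD.CLD
import Pool.Agent.Y563.ZD.We
import Pool.Agent.Y914.ZD.Fda
import Pool.Agent.Y721.ZD.Chare
import Pool.Agent.Y705.ZD.Disce
import Pool.Agent.Y705.ZD.Gend
import Pool.Agent.Y130.ZD.TypD3

/-!
# The Tate conjecture for orthogonal motives of even rank: from one prime to 100 percent of the primes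

Let `X` be a smooth projective variety of even dimension `2j` over a number field `K` and let `V_ℓ`, for
all prime numbers `ℓ`, be a motivic part of `H^{2j}(X, ℚ_ℓ(j))` of EVEN rank `N ≥ 8`, with its symmetric
form, for example the primitive part, or the orthogonal complement of the algebraic classes. At the
places `v` of good reduction prime to `ℓ` the characteristic polynomial `P_v` of the geometric Frobenius
element is a polynomial over `ℚ` which does not depend on `ℓ` (Deligne).

In the generic case the Mumford-Tate group is the special orthogonal group, and one expects for every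
prime `ℓ` that the image of the Galois group is open in the orthogonal group of `V_ℓ` (the Mumford-Tate
conjecture). Then all Tate classes on the tensor powers of `V_ℓ` of degree less than `N` are combinations
of products of the class of the form, so that they are algebraic, and these representations are
semisimple. It is not known that this is independent of `ℓ`: at other primes `V_ℓ` could be reducible or
not semisimple.

Theorem. (A) If the image of the Galois group is open in `O(V_ℓ)` for ONE prime `ℓ` which does not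
divide `(N - 2) (N - 4)` and at which the discriminant of the form has even valuation (this holds for
almost all `ℓ`), then it is open for all `ℓ` outside a set of natural density zero, and for these `ℓ` all
multilinear forms on `V_ℓ` in `k < N` variables which are invariant under an open subgroup of the
Galois group are combinations of products of the given form.

(B) The conclusion holds if there are an automorphism `σ` of the algebraic closure of `ℚ` and places
`v_d` (`0 < d < N`) and `w` of good reduction such that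
* the roots of `P_{v_d}` are simple with different powers and no set of `d` roots is stable
under `σ` (one may take the same place for all `d` if `σ` permutes its roots as a full cycle);
* the roots of `P_w` are simple with different powers and different from `1` and `-1`, `x / y = z / u`
for roots `x ≠ y`, `z`, `u` of `P_w` only in the trivial cases `(z, u) = (x, y)` and
`(z, u) = (1 / y, 1 / x)`, and `σ` fixes one of the roots.

So these conjectures hold at 100 percent of the primes if they hold at one prime, or if finitely many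
Frobenius polynomials have the stated properties. Neither irreducibility nor semisimplicity is
assumed at the other primes.

This complements the theorems for odd rank (MP_c184fc_ag.OpenImageZeroOne) and for alternating forms
(MP_3703a7_ag.SymplecticZeroOne), whose proofs do not work here: there is no vector fixed by the
Frobenius elements (odd rank); at the primes `ℓ` for which the discriminant is a square the Frobenius
element at `ℓ` acts on the roots of every `P_v` as an even signed permutation, so it is never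
a full cycle and no Frobenius polynomial is irreducible over `ℚ_ℓ`; and the Weyl group is only
the group of even signed permutations.

Idea of the proof. The exceptional set is the union of the sets of primes with a stable subspace (for an
open subgroup) of dimension `d`, `0 < d < N`, and of the set of primes for which `V_ℓ` is strongly
irreducible without open image. For the first ones: if no set of `d` roots of `P_v` is stable under
the Frobenius element at `ℓ` then there is no such subspace. For the last one: if the Frobenius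
element fixes a root of `P_w` then the Lie algebra of the image acts absolutely irreducibly; over
the algebraic closure it contains root spaces for a Cartan subalgebra, and it has to be everything. At a
prime with open image the local behaviour of `P_v` can be prescribed; tame inertia at four such primes,
with a Witt decomposition of the form, gives elements (a product of two cycles of lengths `N - 2` and `2`,
one of two cycles of lengths `N - 4` and `4`, a transposition, a double sign change) which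
generate the group of all even signed permutations, over an arbitrary given number field. So for
suitable new places `v` the class of the Frobenius element at `ℓ` is good with a probability which is
bounded from below independently of the other places, and by Chebotarev's theorem the exceptional sets
have density zero. For (A) the needed classes are realised at the given prime.
-/

set_option autoImplicit false

namespace Pool.Agent.Results.MP_021685_ag.EvenOrthogonalZeroOne

open Matrix Polynomial Filter Topology NumberField IsDedekindDomain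

/-- the absolute Galois group of `K`, with its profinite (Krull) topology -/
abbrev AbsoluteGaloisGroup (K : Type) [Field K] : Type := Gal(AlgebraicClosure K/K)

/-- `σ` is an (arithmetic) Frobenius element at the prime `v` of the number field `K`: for some prime
`Q` of the algebraic closure above `v` it acts on the residue field as `x ↦ x ^ N(v)` -/
def IsFrobenius {K : Type} [Field K] [NumberField K] (v : HeightOneSpectrum (𝓞 K))
    (σ : AbsoluteGaloisGroup K) : Prop :=
  ∃ Q : Ideal (𝓞 (AlgebraicClosure K)), Q.IsMaximal ∧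
    Q.comap (algebraMap (𝓞 K) (𝓞 (AlgebraicClosure K))) = v.asIdeal ∧
    ∀ x : 𝓞 (AlgebraicClosure K), σ • x - x ^ Ideal.absNorm v.asIdeal ∈ Q

/-- `ρ` is a continuous representation of `G_K` on `ℚ_ℓ ^ N` which preserves the nondegenerate
symmetric form with the matrix `B`, and for all `v ∉ S` which are prime to `ℓ` the characteristic
polynomial of the geometric Frobenius elements `σ⁻¹` (`σ` arithmetic) at `v` is `P v` -/
def IsOrthogonalSystem (K : Type) [Field K] [NumberField K] (N : ℕ)
    (S : Set (HeightOneSpectrum (𝓞 K))) (P : HeightOneSpectrum (𝓞 K) → ℚ[X]) (ℓ : ℕ)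
    [Fact ℓ.Prime] (ρ : AbsoluteGaloisGroup K →* Matrix (Fin N) (Fin N) ℚ_[ℓ])
    (B : Matrix (Fin N) (Fin N) ℚ_[ℓ]) : Prop :=
  Continuous ρ ∧ Bᵀ = B ∧ B.det ≠ 0 ∧ (∀ σ, (ρ σ)ᵀ * B * ρ σ = B) ∧
    ∀ v ∉ S, (ℓ : 𝓞 K) ∉ v.asIdeal → ∀ σ : AbsoluteGaloisGroup K, IsFrobenius v σ →
      (ρ σ⁻¹).charpoly = (P v).map (algebraMap ℚ ℚ_[ℓ])

/-- the image of the Galois group contains a neighbourhood of `1` in the orthogonal group of `B`, so it
is an open subgroup of this group -/
def HasOpenImage {K : Type} [Field K] {N : ℕ} (ℓ : ℕ) [Fact ℓ.Prime]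
    (ρ : AbsoluteGaloisGroup K →* Matrix (Fin N) (Fin N) ℚ_[ℓ]) (B : Matrix (Fin N) (Fin N) ℚ_[ℓ]) :
    Prop :=
  ∃ ε : ℝ, 0 < ε ∧ ∀ g : Matrix (Fin N) (Fin N) ℚ_[ℓ], gᵀ * B * g = B →
    (∀ i j, ‖(g - 1) i j‖ < ε) → ∃ σ, ρ σ = g

/-- every multilinear form in `k < N` variables on `ℚ_ℓ ^ N` which is invariant under an open subgroup
of the Galois group is a linear combination of the products `∏ B(v_j, v_{π j})` (one factor for
every pair `{j, π j}`), `π` a perfect matching of the variables -/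
def TateTensorsFromForm {K : Type} [Field K] {N : ℕ} (ℓ : ℕ) [Fact ℓ.Prime]
    (ρ : AbsoluteGaloisGroup K →* Matrix (Fin N) (Fin N) ℚ_[ℓ]) (B : Matrix (Fin N) (Fin N) ℚ_[ℓ]) :
    Prop :=
  ∀ (k : ℕ) (φ : MultilinearMap ℚ_[ℓ] (fun _ : Fin k => Fin N → ℚ_[ℓ]) ℚ_[ℓ])
    (U : Subgroup (AbsoluteGaloisGroup K)),
    k < N → IsOpen (U : Set (AbsoluteGaloisGroup K)) →
    (∀ σ ∈ U, ∀ v, φ (fun j => ρ σ *ᵥ v j) = φ v) →
    (fun v => φ v) ∈ Submodule.span ℚ_[ℓ] {f : (Fin k → Fin N → ℚ_[ℓ]) → ℚ_[ℓ] |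
      ∃ π : Equiv.Perm (Fin k), (∀ j, π (π j) = j) ∧ (∀ j, π j ≠ j) ∧
        ∀ v, f v = ∏ j with j < π j, (v j ⬝ᵥ B *ᵥ v (π j))}

/-- the set `A` of prime numbers has natural density zero -/
def HasDensityZero (A : Set ℕ) : Prop :=
  Tendsto (fun n : ℕ => (Nat.card {ℓ : ℕ // ℓ ≤ n ∧ ℓ ∈ A} : ℝ) / (Nat.primeCounting n : ℝ))
    atTop (𝓝 0)

/-- **A zero-one law in `ℓ` for open image in the orthogonal group in even dimension.** -/
theorem result (K : Type) [Field K] [NumberField K] (N : ℕ) (hN : Even N) (hN8 : 8 ≤ N)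
    (S : Set (HeightOneSpectrum (𝓞 K))) (hS : S.Finite) (P : HeightOneSpectrum (𝓞 K) → ℚ[X])
    (ρ : ∀ (ℓ : ℕ) [Fact ℓ.Prime], AbsoluteGaloisGroup K →* Matrix (Fin N) (Fin N) ℚ_[ℓ])
    (B : ∀ (ℓ : ℕ) [Fact ℓ.Prime], Matrix (Fin N) (Fin N) ℚ_[ℓ])
    (hρ : ∀ (ℓ : ℕ) [Fact ℓ.Prime], IsOrthogonalSystem K N S P ℓ (ρ ℓ) (B ℓ)) :
    -- (A)
    (∀ (ℓ : ℕ) [Fact ℓ.Prime], ¬ ℓ ∣ (N - 2) * (N - 4) → Even (B ℓ).det.valuation →
      HasOpenImage ℓ (ρ ℓ) (B ℓ) →
      HasDensityZero {ℓ | ∃ _ : Fact ℓ.Prime,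
        ¬ (HasOpenImage ℓ (ρ ℓ) (B ℓ) ∧ TateTensorsFromForm ℓ (ρ ℓ) (B ℓ))}) ∧
    -- (B)
    ∀ (σ : AbsoluteGaloisGroup ℚ) (v : ℕ → HeightOneSpectrum (𝓞 K)),
      (∀ d : ℕ, 0 < d → d < N → v d ∉ S ∧ (P (v d)).Separable ∧
        (∀ n : ℕ, 0 < n → ∀ x y : ℂ, aeval x (P (v d)) = 0 → aeval y (P (v d)) = 0 →
          x ^ n = y ^ n → x = y) ∧
        ∀ T : Set (AlgebraicClosure ℚ), (∀ x ∈ T, aeval x (P (v d)) = 0) → (∀ x ∈ T, σ x ∈ T) →
          T.ncard ≠ d) →
      ∀ w ∉ S, (P w).Separable →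
        (∀ n : ℕ, 0 < n → ∀ x y : ℂ, aeval x (P w) = 0 → aeval y (P w) = 0 → x ^ n = y ^ n →
          x = y) →
        (∀ x : ℂ, aeval x (P w) = 0 → x ≠ 1 ∧ x ≠ -1) →
        (∀ x y z u : ℂ, aeval x (P w) = 0 → aeval y (P w) = 0 → aeval z (P w) = 0 →
          aeval u (P w) = 0 → x ≠ y → x * u = z * y →
          (z = x ∧ u = y) ∨ (z * y = 1 ∧ u * x = 1)) →
        (∃ x : AlgebraicClosure ℚ, aeval x (P w) = 0 ∧ σ x = x) →
        HasDensityZero {ℓ | ∃ _ : Fact ℓ.Prime,
          ¬ (HasOpenImage ℓ (ρ ℓ) (B ℓ) ∧ TateTensorsFromForm ℓ (ρ ℓ) (B ℓ))} := by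
  obtain ⟨n, hNn⟩ : ∃ n, N = 2 * n := by
    obtain ⟨k, hk⟩ := hN
    exact ⟨k, by omega⟩
  have hn : 4 ≤ n := by omega
  -- the tasks
  have hTAN : Y142.ZO.S_TAN := Y708.ZO.t
  have hFROB : Y142.ZO.S_FROB := Y405.ZO.t
  have hOPEN : Y142.ZI.S_OPEN := Y884.ZI.t
  have hWITT : Y142.ZI.S_WITT := Y87.ZI.t
  have hTERN : Y142.ZI.S_TERN := Y929.ZI.t1
  have hCOMP : Y142.ZI.S_COMP := Y547.ZI.t2
  have hINT : Y142.ZI.S_INT := Y484.ZI.t1
  have hCHEB : Y142.ZI.S_CHEB := Y726.ZI.t1
  have hPOS : Y142.ZI.S_POS := Y726.ZI.pos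
  have hDENS2 : Y142.ZI.S_DENS2 := Y681.ZI.t hCHEB
  have hMULTI : Y142.ZI.S_MULTI := Y537.ZI.t
  have hCAY : Y142.ZI.S_CAY := Y692.ZI.cay
  have hTENS : Y142.ZI.S_TENS := Y155.ZI.t
  have hROOTD : Y142.ZD.S_ROOTD := Z932.ZD.t
  have hROOTE : Y142.ZD.S_ROOTE := Y363.ZD.t hROOTD
  have hABS : Y142.ZD.S_ABS := Y758.ZD.t
  have hBADD : Y142.ZD.S_BADD := Y614.ZD.t
  have hSUB : Y142.ZD.S_SUB := Y100.ZD.t
  have hKRQ : Y142.ZD.S_KRQ := Y331.ZD.t
  have hNR : Y142.ZD.S_NR := Y32.ZD.Nr.t
  have hTAME : Y142.ZD.S_TAME := Y48.ZD.TAME.t hNR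
  have hWE : Y142.ZD.S_WE := Y563.ZD.We.t hWITT hTERN
  have hFDA : Y142.ZD.S_FDA := Y914.ZD.t hWE
  have hFDB : Y142.ZD.S_FDB := Y32.ZD.Fdb.t hWE
  have hTYPD2 : Y142.ZD.S_TYPD2 := Y32.ZD.Typd2.t hNR hCOMP
  have hTYPD3 : Y142.ZD.S_TYPD3 := Y130.ZD.t
  have hCHARE : Y142.ZD.S_CHARE := Y721.ZD.Chare.t
  have hDISCE : Y142.ZD.S_DISCE := Y705.ZD.Disce.t
  have hGEND : Y142.ZD.S_GEND := Y705.ZD.Gend.t
  have hCLD : Y142.ZD.S_CLD := Y48.ZD.CLD.t
  have hsys : ∀ (ℓ : ℕ) [Fact ℓ.Prime], Y142.ZO.Orthogonal K N ℓ (ρ ℓ) (B ℓ) S P := hρ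
  -- from the Lie algebra to the statement
  have hset : HasDensityZero {ℓ | ∃ _ : Fact ℓ.Prime, ¬ Y142.ZI.FullLie ℓ (ρ ℓ) (B ℓ)} →
      HasDensityZero {ℓ | ∃ _ : Fact ℓ.Prime,
        ¬ (HasOpenImage ℓ (ρ ℓ) (B ℓ) ∧ TateTensorsFromForm ℓ (ρ ℓ) (B ℓ))} := by
    intro h
    refine Y142.ZI.DensityZero.mono h ?_
    rintro ℓ ⟨hp, hno⟩
    refine ⟨hp, fun hfull => hno ⟨?_, ?_⟩⟩
    · exact hOPEN ℓ _ _ (ρ ℓ) (hsys ℓ).1 (B ℓ) (hsys ℓ).2.1 (hsys ℓ).2.2.1 (hsys ℓ).2.2.2.1 hfull
    · exact hTENS ℓ _ _ (ρ ℓ) (hsys ℓ).1 (B ℓ) (hsys ℓ).2.1 (hsys ℓ).2.2.1 hfull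
  have main : Y142.ZD.StartData N S P → HasDensityZero {ℓ | ∃ _ : Fact ℓ.Prime,
        ¬ (HasOpenImage ℓ (ρ ℓ) (B ℓ) ∧ TateTensorsFromForm ℓ (ρ ℓ) (B ℓ))} := fun hstart =>
    hset (Y142.ZD.densityE hn hNn hTAN hABS hROOTE hBADD hPOS hSUB hDISCE hMULTI hFROB hCHARE hKRQ
      hFDA hFDB hTYPD2 hTYPD3 hNR hTAME hGEND hCLD hINT hDENS2 hS ρ B hsys hstart)
  refine ⟨?_, ?_⟩
  · intro ℓ hp hdvd hev hop
    have hdvd' : ¬ ℓ ∣ 4 * ((n - 1) * (n - 2)) := by
      intro h
      apply hdvd
      have e1 : N - 2 = 2 * (n - 1) := by omega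
      have e2 : N - 4 = 2 * (n - 2) := by omega
      rw [e1, e2]
      have e3 : 2 * (n - 1) * (2 * (n - 2)) = 4 * ((n - 1) * (n - 2)) := by ring
      rw [e3]
      exact h
    exact main (Y142.ZD.startE hn hNn hMULTI hFROB hCHARE hKRQ hFDA hFDB hTYPD3 hTAME hS ρ B hsys ℓ
      hdvd' (hCAY ℓ _ _ (ρ ℓ) (B ℓ) (hsys ℓ).2.1 (hsys ℓ).2.2.1 hop) hev)
  · intro σ v hv w hw hwsep hwpow hw1 hwgen hfix
    exact main (Y142.ZD.start_of_complex (by omega) ρ B hsys σ v hv hw hwsep hwpow hw1 hwgen hfix)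

end Pool.Agent.Results.MP_021685_ag.EvenOrthogonalZeroOne
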