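import Pool.Agent.Y130.Main

/-!
# The Tate conjecture for products of powers from isolated eigenvalues of Frobenius elements

Let `W` be a Weil cohomology theory with algebraically closed coefficients (étale cohomology with
coefficients in the closure of `ℚ_ℓ`) on a class of smooth proper varieties over the algebraic closure
of a number field or a finitely generated field, with an action of a group `Γ` (the Galois group) on
the cohomology of the varieties under consideration; `χ` is the action on the Tate twists.

Let `X_i` be varieties for which numerical and homological equivalence coincide and whose
transcendental cohomology `T_i` (the orthogonal complement of all algebraic classes) is in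
the middle degree. Let `T_i` be the sum of subspaces `U_c`, `c ∈ C_i`, which are stable under a
subgroup of finite index and irreducible under all subgroups of finite index, and let `U_c` be
orthogonal to all `U_d` except for one of them, `d = c*`, where `c ↦ c*` is an involution. (These are
the decompositions for which the form pairs `U_c` with one `U_d` only; examples: curves and
surfaces whose motive has coefficients in a totally real field or in a CM field, or sums of
such motives which are not isomorphic.) There is no condition of semisimplicity.

For each `U_c`, which is not a line, let there be one element `F` of `Γ` (in the applications: a
Frobenius element) with an isolated eigenvalue `a` on `U_c`. This means, where `α ~ β` is the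
equality up to a root of unity: the eigenvalue is simple up to `~` on `T_i`; a relation `a δ ~ β γ`
between the eigenvalues on `T_i` is possible only for `β ~ a` or `γ ~ a` or
`a δ ~ χ(F) ^ dim X_i`; and no power of the quotient of another eigenvalue `β` on `T_i`, not `~ a`, by
`a` is a product of eigenvalues, and of inverses of eigenvalues, of `F` on the
cohomology of `Z` and of the other `X_j`. For `c* ≠ c` let there be an element of `Γ` whose determinant
on `U_c` has no power in the group generated by `χ(F)`, the eigenvalues on the cohomology of `Z` and of the
other `X_j`, and the determinants on the other `U_d`, `d ≠ c, c*`. So all the hypotheses on the
Galois representations (except for irreducibility) are multiplicative conditions on single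
Frobenius polynomials; nothing is assumed about inertia groups, and the variety `Z` is arbitrary.

Let `Y` be the product of `Z` and of arbitrary powers of some of the `X_i` (if the dimension of `X_i`
is even, the exponent is less than the dimension of the `U_c` with `c* = c`), and for each `i`
which is used let `T_i` be irreducible, or let the Tate conjecture hold for the square `X_i × X_i`.
Then the Tate conjecture, for cycles of all codimensions, holds for `Y` if and only if it holds
for `Z`.

In particular: for one variety `X` of odd dimension with these properties the Tate conjecture for
the square of `X` implies the Tate conjecture for all powers of `X` (and, for a curve over a number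
field, the square is known by the theorem of Faltings).

The proof: let `Q` be the Lie algebra of all triples `(Y, e, Y')`, where `Y` is an operator on
`T = T_i` respecting the `U_c` and multiplying the form by `e` and `Y'` is an operator on the
cohomology of the other factors, such that the pair respects all the multilinear maps from `T` to
the cohomology of the other factors which are equivariant under a subgroup of finite index. The Jordan
decomposition of `F` and a generic additive function on the group generated by its eigenvalues
give a triple with a diagonal operator `D`. As the eigenvalue `a` is isolated, the
components of the other elements of `Q` for suitable roots of `D` have `Y' = 0`, `e = 0` and are of rank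
one or two with the image spanned by the eigenvector and its dual. The irreducibility and
these elements give all operators of rank one or two of the special linear, symplectic or
orthogonal Lie algebra of `U_c`, and the determinants give the centres. The first fundamental
theorem for products of general linear, symplectic and orthogonal groups, proved here in a basis,
shows that the Tate classes are combinations of products of algebraic classes on the factors `X_i`,
of the components for the `U_c` of the diagonal of `X_i × X_i`, and of Tate classes of the
remaining factor.
-/

universe u

namespace Pool.Agent.Results.MP_021685_ag.IsolatedEigenvalues

open Pool.Agent.H914 Pool.Agent.H281R3.HT Pool.Agent.TH125.Gal Pool.Agent.Y130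

/-- **The Tate conjecture for products of powers of varieties with isolated eigenvalues.** -/
theorem result {k : Type u} [Field k] {𝒱 : VarClass k} {ops : CycleOps 𝒱}
    (W : WeilCohomology.{u, 0} ops) [IsAlgClosed W.K] {Γ : Type} [Group Γ] (χ : Γ →* W.Kˣ)
    {ι : Type} (X : ι → GVar W Γ) (Z : GVar W Γ) {C : ι → Type} [∀ i, Finite (C i)]
    (U : ∀ i, C i → Submodule W.K (W.H (X i).X)) (star : ∀ i, C i → C i)
    (Δ : ι → Subgroup Γ)
    (h : ∀ i, IsolatedVar χ (X i) (otherEig X Z i) (U i) (star i) (Δ i))
    (S : Set ι) (Y : GVar W Γ)
    (hY : PTower X Z (fun i n => Even (X i).X.dim → ∀ c, star i c = c →
      n + 1 < Module.finrank W.K (U i c)) S Y)
    (hS : ∀ i ∈ S, Subsingleton (C i) ∨ ∃ Q, IsPowProd (X i) 0 (X i) Q ∧ TateConjecture χ Q) :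
    TateConjecture χ Y ↔ TateConjecture χ Z :=
  tate_isolated h hY hS

end Pool.Agent.Results.MP_021685_ag.IsolatedEigenvalues
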