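import Pool.Agent.Y134.PG.Main

/-!
Tate classes on varieties with an action of a finite `p`-group `G`.

`S` is the set of points of a variety `X` over an algebraic closure of a finite field (the reduction of
a smooth projective variety at a place of a finitely generated field), `F` its Frobenius map, `V` the
cohomology of even degree with the actions of the Galois group `Γ` and of `G`, `W` the part without
invariants of the cohomology of odd degree. The number of Tate classes over a finite extension which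
are not invariant under `G`, that is, which do not come from `X / G`, is bounded by the multiplicities
of cyclotomic polynomials in the reduction modulo `p` of a zeta function attached to `X → X / G`.
-/

set_option autoImplicit false

open Polynomial Pool.Agent.Y134.PG

namespace Pool.Agent.Results.MP_021685_ag.PGroupActions

theorem result {p : ℕ} (hp : p.Prime)
    -- the action of the `p`-group on the points
    {G : Type} [Group G] [Finite G] (hG : IsPGroup p G) {S : Type} [MulAction G S] (F : S → S)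
    (hF : Function.Injective F) (hFG : ∀ (g : G) (x : S), F (g • x) = g • F x)
    (hfin : ∀ m, 1 ≤ m → Finite {x : S // F^[m] x = x})
    -- the cohomology
    {E : Type} [Field E] [CharZero E] [IsAlgClosed E]
    {V : Type} [AddCommGroup V] [Module E V] [FiniteDimensional E V]
    {W : Type} [AddCommGroup W] [Module E W] [FiniteDimensional E W]
    {Γ : Type} [Group Γ] (ρ : Representation E Γ V) (σ : Representation E G V)
    (hρ : ∀ γ g, ρ γ * σ g = σ g * ρ γ)
    (ψ : Module.End E W) (τ : Representation E G W) (hW : ∀ w, (∀ g, τ g w = w) → w = 0)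
    -- the trace formula
    (φ : Γ) (c : ℕ → E)
    (htr : ∀ m, 1 ≤ m → ∀ g : G, (Nat.card {x : S // F^[m] x = g • x} : E)
      = c m + LinearMap.trace E V (σ g * ρ φ ^ m) - LinearMap.trace E W (τ g * ψ ^ m))
    -- the zeta function of `X → X / G`
    (P₁ P₂ P₃ : ℤ[X]) (hP₂ : P₂.coeff 0 = 1) (B₁ B₂ : Multiset E)
    (hB₁ : P₁.map (Int.castRingHom E) = (B₁.map fun x => 1 - C x * X).prod)
    (hB₂ : P₂.map (Int.castRingHom E) = (B₂.map fun x => 1 - C x * X).prod)
    (hP₃ : P₃.map (Int.castRingHom E) = (ψ.charpoly.roots.map fun x => 1 - C x * X).prod)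
    (hN : ∀ m, 1 ≤ m → (overPoints G F m : E) - quotPoints G F m
      = (B₁.map fun x => x ^ m).sum - (B₂.map fun x => x ^ m).sum)
    (H : (ZMod p)[X])
    (hH : H * P₂.map (Int.castRingHom (ZMod p))
      = P₁.map (Int.castRingHom (ZMod p)) * P₃.map (Int.castRingHom (ZMod p)))
    -- the Tate twist
    (ε : Γ →* Eˣ) (Q : ℤ) (hQ : Q ≠ 0) (hε : (ε φ : E) = Q) :
    (∀ j : ℕ, 1 ≤ j → ∀ e : ℕ → ℕ,
      (∀ M ∈ j.divisors, ¬ p ∣ M → ¬ cyc (ZMod p) (Q : ZMod p) M ^ (e M + 1) ∣ H) →
      Module.finrank E (Module.End.maxGenEigenspace (ρ φ ^ j) ((Q : E) ^ j))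
        ≤ Module.finrank E
            (Module.End.maxGenEigenspace (ρ φ ^ j) ((Q : E) ^ j) ⊓ σ.invariants :
              Submodule E V)
          + ∑ M ∈ j.divisors.filter (fun M => ¬ p ∣ M), M.totient * e M ∧
      ∀ Γ' : Subgroup Γ, φ ^ j ∈ Γ' → Module.finrank E (tateVectors ρ ε Γ')
        ≤ Module.finrank E (tateVectors ρ ε Γ' ⊓ σ.invariants : Submodule E V)
          + ∑ M ∈ j.divisors.filter (fun M => ¬ p ∣ M), M.totient * e M) ∧
    ((∀ M, 1 ≤ M → ¬ p ∣ M → ¬ cyc (ZMod p) (Q : ZMod p) M ∣ H) →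
      (∀ j : ℕ, 1 ≤ j → Module.End.maxGenEigenspace (ρ φ ^ j) ((Q : E) ^ j) ≤ σ.invariants) ∧
      ∀ Γ' : Subgroup Γ, Γ'.FiniteIndex → tateVectors ρ ε Γ' ≤ σ.invariants) := by
  have hgen : ∀ j, ∀ v ∈ Module.End.maxGenEigenspace (ρ φ ^ j) ((Q : E) ^ j),
      ∃ k, ((ρ φ ^ j - (Q : E) ^ j • (1 : Module.End E V)) ^ k) v = 0 := fun j v hv =>
    (Module.End.mem_maxGenEigenspace _ _ _).1 hv
  have htate : ∀ (j : ℕ) (Γ' : Subgroup Γ), φ ^ j ∈ Γ' → ∀ v ∈ tateVectors ρ ε Γ',
      ∃ k, ((ρ φ ^ j - (Q : E) ^ j • (1 : Module.End E V)) ^ k) v = 0 := by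
    intro j Γ' hj v hv
    refine ⟨1, ?_⟩
    have h1 := hv (φ ^ j) hj
    rw [map_pow, map_pow, Units.val_pow_eq_pow_val, hε] at h1
    rw [pow_one, LinearMap.sub_apply, LinearMap.smul_apply, Module.End.one_apply, h1, sub_self]
  have h0 : ∀ j : ℕ, 1 ≤ j → ∀ e : ℕ → ℕ,
      (∀ M ∈ j.divisors, ¬ p ∣ M → ¬ cyc (ZMod p) (Q : ZMod p) M ^ (e M + 1) ∣ H) →
      ∀ T : Submodule E V,
        (∀ v ∈ T, ∃ k, ((ρ φ ^ j - (Q : E) ^ j • (1 : Module.End E V)) ^ k) v = 0) →
      Module.finrank E T ≤ Module.finrank E (T ⊓ σ.invariants : Submodule E V)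
          + ∑ M ∈ j.divisors.filter (fun M => ¬ p ∣ M), M.totient * e M :=
    fun j hj e he T hT => bound hp hG F hF hFG hfin ρ σ hρ ψ τ hW φ c htr P₁ P₂ P₃ hP₂ B₁ B₂
      hB₁ hB₂ hP₃ hN H hH hQ hj e he T hT
  refine ⟨fun j hj e he => ⟨h0 j hj e he _ (hgen j), fun Γ' hΓ' => h0 j hj e he _
    (htate j Γ' hΓ')⟩, fun hH0 => ?_⟩
  have h2 : ∀ j, 1 ≤ j → Module.End.maxGenEigenspace (ρ φ ^ j) ((Q : E) ^ j) ≤ σ.invariants := by
    intro j hj
    have h3 := h0 j hj (fun _ => 0) (by
      intro M hM hpM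
      rw [zero_add, pow_one]
      exact hH0 M (Nat.pos_of_mem_divisors hM) hpM) _ (hgen j)
    simp only [mul_zero, Finset.sum_const_zero, add_zero] at h3
    exact inf_eq_left.1 (Submodule.eq_of_le_of_finrank_le inf_le_left h3)
  refine ⟨h2, fun Γ' hΓ' => ?_⟩
  obtain ⟨j, hj, -, hj2⟩ := Subgroup.exists_pow_mem_of_index_ne_zero hΓ'.index_ne_zero φ
  intro v hv
  exact h2 j hj ((Module.End.mem_maxGenEigenspace _ _ _).2 (htate j Γ' hj2 v hv))

end Pool.Agent.Results.MP_021685_ag.PGroupActions
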